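import Pool.Agent.X245.VS.Hard
import Pool.Agent.X245.VS.Mem

/-!
# Single-vehicle scheduling on a path with positive handling times is NP-complete

An instance (`Inst` in `Pool.Agent.X245.VS.Defs`) consists of a path with the vertices `0, …, n` in
their order along the line, a start vertex, a travel time for each edge and each direction, and a
release time and a handling time for the job at each vertex; all numbers are natural numbers,
written in binary. `completion π` is the time at which the vehicle is back at the start vertex
when it processes the jobs in the order `π`.

`SVS (I, K)` says that all the handling times are positive and some schedule has completion time
at most `K`. `SVSsym (I, K)` says in addition that the travel times are symmetric and positive and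
that the start vertex is the end `0` of the path.
-/

namespace Pool.Agent.Results.MP_6e49ee_lc.PathSchedulingNPComplete

open Pool.Agent.NPC Pool.Agent.X245.VS

/-- The decision version of single-vehicle scheduling on a path with positive handling times is
`NP`-complete, and it remains `NP`-hard for symmetric positive travel times and a start vertex at
the end of the path. -/
theorem result : InNPP SVS ∧ NPHardP SVS ∧ NPHardP SVSsym :=
  ⟨inNPP_SVS, hardI_SVS.toNPHardP, hardI_SVSsym.toNPHardP⟩

end Pool.Agent.Results.MP_6e49ee_lc.PathSchedulingNPComplete
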